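import Mathlib
import Pool.Agent.TH922.KC.Kol7

set_option autoImplicit false

namespace Pool.Agent.Results.MP_8dbee4_ag.BlockCoverings

/-- On a very general complete intersection of degrees `d_1, …, d_r` in `P^(n+r)` over `ℂ`
(off countably many proper closed subsets, the `bad j`, of the parameter space), every irreducible
curve `C` (homogeneous prime `I` with `dim ℂ[x]/I = 2`; its degree is the eventual value of the
difference of the Hilbert function) satisfies the following. Let `2J ≤ n + 1`, let `H_1, …, H_m` be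
subsets of a set of `n + 1 - J` points such that any two points lie in a common `H_h`, and let
`Q > 0` be such that every prime factor of `Q` is larger than `n`, or larger than all `2|H_h|`.
If at `J + m` distinct indices `Q` divides the first `J` degrees, and the others satisfy
`Q ^ (|H_h| - 1) ∣ d`, `d > 0` and `d ≥ min(J, |H_h|) * Q ^ |H_h|`, then `Q ∣ deg C`.
For `m = 1`: `Q` divides `J` of the degrees and `Q ^ (n - J)` another one. -/
theorem result :
    ∀ (n r : ℕ) (_hn : 0 < n) (d : Fin r → ℕ),
    ∃ bad : ℕ → MvPolynomial (Σ i : Fin r, {μ : Fin (n + r + 1) →₀ ℕ // μ.degree = d i}) ℂ,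
      (∀ j, bad j ≠ 0) ∧
      ∀ f : Fin r → MvPolynomial (Fin (n + r + 1)) ℂ,
        (∀ i, f i ∈ MvPolynomial.homogeneousSubmodule (Fin (n + r + 1)) ℂ (d i)) →
        (∀ j, MvPolynomial.eval (fun x => MvPolynomial.coeff x.2.1 (f x.1)) (bad j) ≠ 0) →
        ∀ I : Ideal (MvPolynomial (Fin (n + r + 1)) ℂ),
          (∀ p ∈ I, ∀ k : ℕ, MvPolynomial.homogeneousComponent k p ∈ I) →
          I.IsPrime →
          ringKrullDim (MvPolynomial (Fin (n + r + 1)) ℂ ⧸ I) = 2 →
          (∀ i, f i ∈ I) →
          ∀ (Q J m : ℕ) (H : Fin m → Finset (Fin (n + 1 - J))) (ix : Fin J ⊕ Fin m → Fin r),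
            0 < Q → (∀ p : ℕ, p.Prime → p ∣ Q → n < p ∨ ∀ h, 2 * (H h).card < p) →
            2 * J ≤ n + 1 → Function.Injective ix →
            (∀ a b, a ≠ b → ∃ h, a ∈ H h ∧ b ∈ H h) →
            (∀ j, Q ∣ d (ix (Sum.inl j))) →
            (∀ h, Q ^ ((H h).card - 1) ∣ d (ix (Sum.inr h)) ∧
              min J (H h).card * Q ^ (H h).card ≤ d (ix (Sum.inr h)) ∧
              0 < d (ix (Sum.inr h))) →
            ∃ K : ℕ, ∀ k : ℕ, K ≤ k →
              (Q : ℤ) ∣
                (Module.finrank ℂ (Submodule.map (Ideal.Quotient.mkₐ ℂ I).toLinearMap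
                    (MvPolynomial.homogeneousSubmodule (Fin (n + r + 1)) ℂ (k + 1))) : ℤ) -
                (Module.finrank ℂ (Submodule.map (Ideal.Quotient.mkₐ ℂ I).toLinearMap
                    (MvPolynomial.homogeneousSubmodule (Fin (n + r + 1)) ℂ k)) : ℤ) :=
  Pool.Agent.TH922.KC.main_cover

end Pool.Agent.Results.MP_8dbee4_ag.BlockCoverings
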