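import Mathlib
import Pool.Agent.TH922.KC.Con6

set_option autoImplicit false

namespace Pool.Agent.Results.MP_8dbee4_ag.GraphGroups

/-- On a very general complete intersection of degrees `d_1, …, d_r` in `P^(n+r)` over `ℂ`
(off countably many proper closed subsets, the `bad j`, of the parameter space), every irreducible
curve `C` (homogeneous prime `I` with `dim ℂ[x]/I = 2`; its degree is the eventual value of the
difference of the Hilbert function) satisfies: let `m` be `n(n+1)/2`, or `⌊(n+1)²/4⌋ + 1`, or `14n`,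
or the number of edges of any graph (vertices `Fin N`, edges `(a c, b c)`) such that for every set
`K` of at most `n` vertices there is a connected set `T` of vertices, disjoint from `K`, with
`|K| + |T| ≥ n + 1`. Then for every way `g` of sorting the indices `1, …, r` into `m` groups and
every `Q > 0`, if `Q` divides the product of the `d_i` of each group, then `Q ∣ deg C`. -/
theorem result :
    ∀ (n r : ℕ) (d : Fin r → ℕ),
    ∃ bad : ℕ → MvPolynomial (Σ i : Fin r, {μ : Fin (n + r + 1) →₀ ℕ // μ.degree = d i}) ℂ,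
      (∀ j, bad j ≠ 0) ∧
      ∀ f : Fin r → MvPolynomial (Fin (n + r + 1)) ℂ,
        (∀ i, f i ∈ MvPolynomial.homogeneousSubmodule (Fin (n + r + 1)) ℂ (d i)) →
        (∀ j, MvPolynomial.eval (fun x => MvPolynomial.coeff x.2.1 (f x.1)) (bad j) ≠ 0) →
        ∀ I : Ideal (MvPolynomial (Fin (n + r + 1)) ℂ),
          (∀ p ∈ I, ∀ k : ℕ, MvPolynomial.homogeneousComponent k p ∈ I) →
          I.IsPrime →
          ringKrullDim (MvPolynomial (Fin (n + r + 1)) ℂ ⧸ I) = 2 →
          (∀ i, f i ∈ I) →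
          ∀ m : ℕ, (m = n * (n + 1) / 2 ∨ m = (n + 1) ^ 2 / 4 + 1 ∨ (0 < n ∧ m = 14 * n) ∨
            ∃ (N : ℕ) (a b : Fin m → Fin N), ∀ K : Finset (Fin N), K.card ≤ n →
              ∃ T : Finset (Fin N), Disjoint K T ∧ n + 1 ≤ K.card + T.card ∧
                ∀ U ⊂ T, U.Nonempty →
                  ∃ c, (a c ∈ U ∧ b c ∈ T \ U) ∨ (b c ∈ U ∧ a c ∈ T \ U)) →
          ∀ (g : Fin r → Fin m) (Q : ℕ), 0 < Q →
            (∀ c, Q ∣ ∏ i ∈ Finset.univ.filter (fun i => g i = c), d i) →
            ∃ K : ℕ, ∀ k : ℕ, K ≤ k →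
              (Q : ℤ) ∣
                (Module.finrank ℂ (Submodule.map (Ideal.Quotient.mkₐ ℂ I).toLinearMap
                    (MvPolynomial.homogeneousSubmodule (Fin (n + r + 1)) ℂ (k + 1))) : ℤ) -
                (Module.finrank ℂ (Submodule.map (Ideal.Quotient.mkₐ ℂ I).toLinearMap
                    (MvPolynomial.homogeneousSubmodule (Fin (n + r + 1)) ℂ k)) : ℤ) := by
  intro n r d
  obtain ⟨bad, hbad, hmain⟩ := Pool.Agent.TH922.KC.main_graph' n r d
  exact ⟨bad, hbad, fun f hf hfb I hI hIp hdim hfI m hm =>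
    hmain f hf hfb I hI hIp hdim hfI m (Pool.Agent.TH922.KC.rob_of_rob' hm)⟩

end Pool.Agent.Results.MP_8dbee4_ag.GraphGroups
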