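import Mathlib
import Pool.Agent.TH922.KC.Fin2

set_option autoImplicit false

namespace Pool.Agent.Results.MP_8dbee4_ag.KollarCompleteIntersections

/-- On a very general complete intersection of degrees `d_1, …, d_r` in `P^(n+r)` over `ℂ`
(off countably many proper closed subsets, the `bad j`, of the parameter space), every irreducible
curve `C` (homogeneous prime `I` with `dim ℂ[x]/I = 2`; its degree is the eventual value of the
difference of the Hilbert function) satisfies: for every prime `m` and all `s`, `j`, if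
`n ≤ t * (m ^ (j + 1) - 1)` where `t` is the number of `i` with `m ^ (n * s) ∣ d i`, then
`m ^ s ∣ m ^ j * deg C`. -/
theorem result :
    ∀ (n r : ℕ) (d : Fin r → ℕ),
    ∃ bad : ℕ → MvPolynomial (Σ i : Fin r, {μ : Fin (n + r + 1) →₀ ℕ // μ.degree = d i}) ℂ,
      (∀ j, bad j ≠ 0) ∧
      ∀ f : Fin r → MvPolynomial (Fin (n + r + 1)) ℂ,
        (∀ i, f i ∈ MvPolynomial.homogeneousSubmodule (Fin (n + r + 1)) ℂ (d i)) →
        (∀ j, MvPolynomial.eval (fun x => MvPolynomial.coeff x.2.1 (f x.1)) (bad j) ≠ 0) →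
        ∀ I : Ideal (MvPolynomial (Fin (n + r + 1)) ℂ),
          (∀ p ∈ I, ∀ k : ℕ, MvPolynomial.homogeneousComponent k p ∈ I) →
          I.IsPrime →
          ringKrullDim (MvPolynomial (Fin (n + r + 1)) ℂ ⧸ I) = 2 →
          (∀ i, f i ∈ I) →
          ∀ m s j : ℕ, m.Prime →
            n ≤ (Finset.univ.filter fun i => m ^ (n * s) ∣ d i).card * (m ^ (j + 1) - 1) →
            ∃ K : ℕ, ∀ k : ℕ, K ≤ k →
              ((m ^ s : ℕ) : ℤ) ∣ ((m ^ j : ℕ) : ℤ) *
                ((Module.finrank ℂ (Submodule.map (Ideal.Quotient.mkₐ ℂ I).toLinearMap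
                    (MvPolynomial.homogeneousSubmodule (Fin (n + r + 1)) ℂ (k + 1))) : ℤ) -
                (Module.finrank ℂ (Submodule.map (Ideal.Quotient.mkₐ ℂ I).toLinearMap
                    (MvPolynomial.homogeneousSubmodule (Fin (n + r + 1)) ℂ k)) : ℤ)) :=
  Pool.Agent.TH922.KC.main

end Pool.Agent.Results.MP_8dbee4_ag.KollarCompleteIntersections
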